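import Pool.Agent.W323.SC.Stm

/-!
Non-spanning sets in a rank-3 matroid: the five types.
-/

set_option autoImplicit false
open Finset
open scoped Classical

namespace Pool.Agent.W67.SC

open Pool.Agent.W323.SC

/-- A set inside the closure of two elements is not spanning when the rank is 3. -/
theorem nsp {n : ℕ} {M : Matroid (Fin n)} (hR : M.eRank = 3) (a b : Fin n) {X : Set (Fin n)}
    (h : X ⊆ M.closure {a, b}) : ¬ M.Spanning X := by
  intro hX
  have h1 : M.eRk X = 3 := by rw [hX.eRk_eq, hR]
  have h2 : M.eRk X ≤ M.eRk {a, b} := by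
    rw [← M.eRk_closure_eq {a, b}]
    exact M.eRk_mono h
  have h3 : M.eRk {a, b} ≤ 2 := by
    refine (M.eRk_le_encard _).trans ((Set.encard_insert_le {b} a).trans ?_)
    rw [Set.encard_singleton]
    norm_num
  rw [h1] at h2
  have h4 := h2.trans h3
  exact absurd h4 (by decide)

theorem mem_clF {n : ℕ} {M : Matroid (Fin n)} {S : Set (Fin n)} {x : Fin n} :
    x ∈ clF M S ↔ x ∈ M.closure S := by
  simp [clF]

theorem m2 : S_M2 := by
  intro n M hE hR e f hef hI X hX
  have hg : ∀ S : Set (Fin n), S ⊆ M.E := by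
    intro S
    rw [hE]
    exact Set.subset_univ S
  have hself : ∀ (S : Set (Fin n)) (x : Fin n), x ∈ S → x ∈ M.closure S := fun S x hx =>
    M.subset_closure S (hg S) hx
  have hLL : ∀ x ∈ LL M e f, x ∈ M.closure {e, f} := by
    intro x hx
    unfold LL at hx
    exact mem_clF.1 (Finset.mem_sdiff.1 hx).1
  have hTT : ∀ x ∈ TT M e f, x ∉ M.closure {e, f} := by
    intro x hx
    unfold TT at hx
    exact fun h => (Finset.mem_sdiff.1 hx).2 (mem_clF.2 h)
  have hsplit : ∀ x ∈ X, x ∈ X ∩ LL M e f ∨ x ∈ X ∩ TT M e f := by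
    intro x hx
    rcases Finset.mem_union.1 (hX hx) with h | h
    · exact Or.inl (Finset.mem_inter.2 ⟨hx, h⟩)
    · exact Or.inr (Finset.mem_inter.2 ⟨hx, h⟩)
  have hlab : ∀ a p u : Fin n, lab M a u = lab M a p → u ∈ M.closure {a, p} := by
    intro a p u h
    have h1 : u ∈ lab M a u := mem_clF.2 (hself _ _ (by simp))
    rw [h] at h1
    exact mem_clF.1 h1
  have hpt : ∀ p ∈ TT M e f, ∀ u, lab M e u = lab M e p → lab M f u = lab M f p →
      u ∈ M.closure {p} := by
    intro p hp u h1 h2
    have hp' := hTT p hp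
    have hpe : p ≠ e := by
      rintro rfl
      exact hp' (hself _ _ (by simp))
    have hpf : p ≠ f := by
      rintro rfl
      exact hp' (hself _ _ (by simp))
    have hind : M.Indep (insert p {e, f}) := by
      rw [hI.insert_indep_iff]
      left
      exact ⟨hg {p} rfl, hp'⟩
    have hu : M.Indep (({e, p} : Set (Fin n)) ∪ {f, p}) := by
      refine hind.subset ?_
      intro x hx
      simp only [Set.mem_union, Set.mem_insert_iff, Set.mem_singleton_iff] at hx ⊢
      tauto
    have h3 : u ∈ M.closure ({e, p} : Set (Fin n)) ∩ M.closure {f, p} :=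
      ⟨hlab e p u h1, hlab f p u h2⟩
    rw [← hu.closure_inter_eq_inter_closure] at h3
    have h4 : ({e, p} : Set (Fin n)) ∩ {f, p} ⊆ {p} := by
      intro x hx
      simp only [Set.mem_inter_iff, Set.mem_insert_iff, Set.mem_singleton_iff] at hx ⊢
      rcases hx with ⟨h5 | h5, h6 | h6⟩
      · exact absurd (h5.symm.trans h6) hef
      · exact h6
      · exact h5
      · exact h5
    exact M.closure_subset_closure h4 h3
  have c1 : X ⊆ LL M e f → ¬ M.Spanning (X : Set (Fin n)) := by
    intro h
    exact nsp hR e f fun x hx => hLL x (h (Finset.mem_coe.1 hx))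
  refine ⟨c1, ?_, ?_, ?_⟩
  · intro hc hP
    by_cases hne : (X ∩ TT M e f).Nonempty
    · obtain ⟨p, hp⟩ := hne
      refine nsp hR e p fun x hx => ?_
      rcases hsplit x (Finset.mem_coe.1 hx) with h | h
      · have h1 := hP h
        unfold PP at h1
        exact M.closure_subset_closure (by simp) (mem_clF.1 (Finset.mem_sdiff.1 h1).1)
      · exact hlab e p x (hc x h p hp)
    · apply c1
      intro x hx
      rcases hsplit x hx with h | h
      · exact (Finset.mem_inter.1 h).2
      · exact absurd ⟨x, h⟩ hne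
  · intro hP p hp q hq hu
    refine nsp hR p q fun x hx => ?_
    rcases hsplit x (Finset.mem_coe.1 hx) with h | h
    · exact M.closure_subset_closure (by simp) (mem_clF.1 (hP h))
    · rcases hu x h with ⟨h1, h2⟩ | ⟨h1, h2⟩
      · exact M.closure_subset_closure (by simp) (hpt p (Finset.mem_inter.1 hp).2 x h1 h2)
      · exact M.closure_subset_closure (by simp) (hpt q (Finset.mem_inter.1 hq).2 x h1 h2)
  · intro g hgL hP hc hc'
    by_cases hne : (X ∩ TT M e f).Nonempty
    · obtain ⟨p, hp⟩ := hne
      refine nsp hR g p fun x hx => ?_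
      rcases hsplit x (Finset.mem_coe.1 hx) with h | h
      · rcases Finset.mem_insert.1 (hP h) with h1 | h1
        · rw [h1]
          exact hself _ _ (by simp)
        · exact M.closure_subset_closure (by simp) (mem_clF.1 h1)
      · exact M.closure_subset_closure (by simp)
          (hpt p (Finset.mem_inter.1 hp).2 x (hc x h p hp) (hc' x h p hp))
    · apply c1
      intro x hx
      rcases hsplit x hx with h | h
      · exact (Finset.mem_inter.1 h).2
      · exact absurd ⟨x, h⟩ hne

end Pool.Agent.W67.SC
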